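import Pool.Agent.W695.KH.Chee
import Pool.Agent.W695.KH.WrapD

/-!
# The KLS conjecture in Cheeger form for symmetric convex bodies of Hermitian matrices invariant under
conjugation

Q1 for all symmetric convex bodies `K` of `q`-tuples of real symmetric or complex Hermitian `N × N`
matrices, `3 ≤ N`, which are invariant under simultaneous unitary conjugation: the Cheeger constant of
the uniform measure is at least `c / q²` times the one for halfspaces, `c` absolute (independent of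
`N`). Minkowski boundary measure, all measurable sets.

Method: the Poincare inequality of `Pool.Agent.H888R2.KT` (starting files) and a new formalised proof
of the implication from Poincare to Cheeger inequalities for log-concave measures by a discrete heat
flow (modules `KH`).
-/

set_option autoImplicit false

namespace Pool.Agent.Results.MP_8d00da_gt.ConjugationInvariantCheeger

open MeasureTheory Set
open scoped ENNReal InnerProductSpace Matrix

/-- `Φ` takes values in the Hermitian matrices -/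
def TakesHerm {𝕜 : Type} [RCLike 𝕜] {N : ℕ} {ι : Type} [Fintype ι]
    (Φ : EuclideanSpace ℝ ι →ₗ[ℝ] Matrix (Fin N) (Fin N) 𝕜) : Prop := ∀ x, (Φ x)ᴴ = Φ x

/-- every Hermitian matrix is a value of `Φ` -/
def OntoHerm {𝕜 : Type} [RCLike 𝕜] {N : ℕ} {ι : Type} [Fintype ι]
    (Φ : EuclideanSpace ℝ ι →ₗ[ℝ] Matrix (Fin N) (Fin N) 𝕜) : Prop :=
  ∀ A : Matrix (Fin N) (Fin N) 𝕜, Aᴴ = A → ∃ x, Φ x = A

/-- `Φ` preserves the Hilbert-Schmidt norm -/
def PreservesNorm {𝕜 : Type} [RCLike 𝕜] {N : ℕ} {ι : Type} [Fintype ι]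
    (Φ : EuclideanSpace ℝ ι →ₗ[ℝ] Matrix (Fin N) (Fin N) 𝕜) : Prop :=
  ∀ x, ∑ i, ∑ j, ‖Φ x i j‖ ^ 2 = ‖x‖ ^ 2

/-- `Φ` is a linear isometry of the Euclidean space `ℝ^ι` onto the real vector space of Hermitian
`N × N` matrices over `𝕜` with the Hilbert-Schmidt norm. -/
def HermFrame {𝕜 : Type} [RCLike 𝕜] {N : ℕ} {ι : Type} [Fintype ι]
    (Φ : EuclideanSpace ℝ ι →ₗ[ℝ] Matrix (Fin N) (Fin N) 𝕜) : Prop :=
  TakesHerm Φ ∧ OntoHerm Φ ∧ PreservesNorm Φ

/-- the `j`-th component of a `q`-tuple of vectors of `ℝ^ι` -/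
def comp {q : ℕ} {ι : Type} (j : Fin q) (x : EuclideanSpace ℝ (Fin q × ι)) : EuclideanSpace ℝ ι :=
  WithLp.toLp 2 fun i => x (j, i)

/-- `Ω` (a set of `q`-tuples of Hermitian matrices `X_j = Φ (comp j x)`) is invariant under the
simultaneous conjugations `X_j ↦ U X_j Uᴴ`, `j = 1, …, q`, for all unitary (orthogonal if `𝕜 = ℝ`)
matrices `U`. -/
def Invariant {𝕜 : Type} [RCLike 𝕜] {N q : ℕ} {ι : Type} [Fintype ι]
    (Φ : EuclideanSpace ℝ ι →ₗ[ℝ] Matrix (Fin N) (Fin N) 𝕜)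
    (Ω : Set (EuclideanSpace ℝ (Fin q × ι))) : Prop :=
  ∀ U ∈ Matrix.unitaryGroup (Fin N) 𝕜, ∀ x y,
    (∀ j, Φ (comp j y) = U * Φ (comp j x) * Uᴴ) → x ∈ Ω → y ∈ Ω

section defs

variable {κ : Type} [Fintype κ]

/-- convex body: compact, convex, with nonempty interior -/
structure ConvexBody (K : Set (EuclideanSpace ℝ κ)) : Prop where
  conv : Convex ℝ K
  comp : IsCompact K
  int : (interior K).Nonempty

/-- Minkowski (exterior) boundary measure `μ⁺(A)` -/
noncomputable def bdry (μ : Measure (EuclideanSpace ℝ κ)) (A : Set (EuclideanSpace ℝ κ)) : ℝ≥0∞ :=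
  Filter.liminf (fun ε : ℝ => (μ (Metric.thickening ε A) - μ A) / ENNReal.ofReal ε)
    (nhdsWithin 0 (Set.Ioi 0))

/-- the halfspace `⟪u, x⟫ ≤ b` -/
def halfspace (u : EuclideanSpace ℝ κ) (b : ℝ) : Set (EuclideanSpace ℝ κ) :=
  {x | inner ℝ u x ≤ b}

/-- the uniform probability measure on `K` -/
noncomputable def unif (K : Set (EuclideanSpace ℝ κ)) : Measure (EuclideanSpace ℝ κ) :=
  (volume K)⁻¹ • volume.restrict K

/-- the inequality of Kannan, Lovasz and Simonovits with constant `c` for the uniform measure `μ` on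
`K`: if `t min(μ H, 1 - μ H) ≤ μ⁺(H)` for all halfspaces `H` then `c t min(μ A, 1 - μ A) ≤ μ⁺(A)` for
all measurable `A`; that is, `D_Che(μ) ≥ c D_Che^Lin(μ)`. -/
def KLSBound (c : ℝ) (K : Set (EuclideanSpace ℝ κ)) : Prop :=
  ∀ t : ℝ≥0∞, (∀ (u : EuclideanSpace ℝ κ) (b : ℝ), u ≠ 0 →
      t * min (unif K (halfspace u b)) (1 - unif K (halfspace u b)) ≤
        bdry (unif K) (halfspace u b)) →
    ∀ A : Set (EuclideanSpace ℝ κ), MeasurableSet A →
      ENNReal.ofReal c * t * min (unif K A) (1 - unif K A) ≤ bdry (unif K) A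

end defs

theorem invariant_di {𝕜 : Type} [RCLike 𝕜] {N q : ℕ} {ι : Type} [Fintype ι]
    {Φ : EuclideanSpace ℝ ι →ₗ[ℝ] Matrix (Fin N) (Fin N) 𝕜} (hΦ : Pool.Agent.H888R2.KC.Fr Φ)
    {Ω : Set (EuclideanSpace ℝ (Fin q × ι))} (h : Invariant Φ Ω) (U : Matrix (Fin N) (Fin N) 𝕜)
    (hU : U ∈ Matrix.unitaryGroup (Fin N) 𝕜) (x : EuclideanSpace ℝ (Fin q × ι)) (hx : x ∈ Ω) :
    Pool.Agent.H888R2.KT.di q (Pool.Agent.H888R2.KC.cj Φ U) x ∈ Ω := by
  refine h U hU x _ (fun j => ?_) hx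
  have h1 : Pool.Agent.H888R2.KT.cp j (Pool.Agent.H888R2.KT.di q
      (Pool.Agent.H888R2.KC.cj Φ U) x) =
      Pool.Agent.H888R2.KC.cj Φ U (Pool.Agent.H888R2.KT.cp j x) :=
    Pool.Agent.H888R2.KT.C1bx.cp_di _ x j
  have h2 := Pool.Agent.H888R2.KC.Phi_cj hΦ U (Pool.Agent.H888R2.KT.cp j x)
  rw [← h1] at h2
  exact h2

/-- **KLS (Cheeger form) for symmetric convex bodies of tuples of Hermitian matrices invariant under
conjugation.** There is an absolute constant `c > 0` such that for `𝕜 = ℝ` or `ℂ`, all `N ≥ 3`,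
`q ≥ 1`, every linear isometric parametrisation `Φ` of the Hermitian `N × N` matrices over `𝕜`, and
every convex body `K = -K` of `q`-tuples invariant under simultaneous conjugation by unitary matrices
`D_Che(λ_K) ≥ (c / q²) D_Che^Lin(λ_K)`. -/
theorem result : ∃ c : ℝ, 0 < c ∧ ∀ (𝕜 : Type) [RCLike 𝕜] (N q : ℕ), 3 ≤ N → 1 ≤ q →
    ∀ (ι : Type) [Fintype ι] (Φ : EuclideanSpace ℝ ι →ₗ[ℝ] Matrix (Fin N) (Fin N) 𝕜),
    HermFrame Φ → ∀ K : Set (EuclideanSpace ℝ (Fin q × ι)), ConvexBody K → (∀ x ∈ K, -x ∈ K) →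
    Invariant Φ K → KLSBound (c / q ^ 2) K := by
  obtain ⟨c, hc, H⟩ := Pool.Agent.W695.KH.cheeger
  obtain ⟨C, hC, h⟩ := Pool.Agent.W695.KH.conj_strong
  refine ⟨c / Real.sqrt C, by positivity, ?_⟩
  intro 𝕜 _ N q hN hq ι _ Φ hΦ' K hK hsym hinv
  have hΦ : Pool.Agent.H888R2.KC.Fr Φ := ⟨hΦ'.1, hΦ'.2.1, hΦ'.2.2⟩
  have hq0 : (0 : ℝ) < q := by exact_mod_cast hq
  have hι : Nonempty ι := Pool.Agent.W695.KH.nonempty_of_frame hΦ hN
  have hne' : Nonempty (Fin q × ι) := ⟨(⟨0, hq⟩, hι.some)⟩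
  have key := H (Fin q × ι) K hK.conv hK.comp hK.int hsym (C * ((q : ℝ) ^ 2) ^ 2) (by positivity)
    (fun A hA hprob hnn hmeas hlc hiso =>
      h hΦ hN hq _ (Pool.Agent.W695.KH.di_dens hΦ (invariant_di hΦ hinv) _ hnn hmeas hlc hiso)
        hprob)
  intro t ht A hA
  have h1 := key (unif K) rfl t ht A hA
  rw [Real.sqrt_mul hC.le, Real.sqrt_sq (by positivity), ← div_div] at h1
  exact h1

end Pool.Agent.Results.MP_8d00da_gt.ConjugationInvariantCheeger
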