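import Pool.Agent.W695.KH.Chee2
import Pool.Agent.H888R2.KB.N2
import Pool.Agent.H888R2.KB.G1

/-!
# The KLS conjecture in Cheeger form for convex bodies invariant under independent rotations

Q1 for all convex bodies `K` of `b`-tuples `(X_1, …, X_b)` of real `m × n` matrices, `n ≤ m`, `3 ≤ m`,
which are invariant under `(X_1, …, X_b) ↦ (g_1 X_1, …, g_b X_b)` with independent orthogonal `g_i`,
for sets of measure `1/2` (to which the infimum in the Cheeger constant may be restricted by a known
theorem), with constant `c / (1 + log b / m)`, absolute for `b ≤ exp m`. Minkowski boundary measure.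

Method: the weak Poincare inequality of `Pool.Agent.H888R2.KB` (starting files) and a new formalised
proof of the implication from Poincare to Cheeger inequalities for log-concave measures by a discrete
heat flow (modules `KH`).
-/

set_option autoImplicit false

namespace Pool.Agent.Results.MP_8d00da_gt.IndependentRotationsCheeger

open MeasureTheory Set
open scoped ENNReal InnerProductSpace

/-- `b`-tuples of real `m × n` matrices with the Euclidean (Hilbert-Schmidt) structure -/
abbrev Tuples (b m n : ℕ) : Type := EuclideanSpace ℝ (Fin b × (Fin m × Fin n))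

/-- the `i`-th matrix `X_i` of the tuple `x` -/
def block {b m n : ℕ} (i : Fin b) (x : Tuples b m n) : Matrix (Fin m) (Fin n) ℝ :=
  Matrix.of fun k l => x (i, (k, l))

/-- `Ω` contains with `(X_1, …, X_b)` all tuples in which one `X_i` is replaced by `g X_i`, `g`
orthogonal; so `Ω` is invariant under all `(X_1, …, X_b) ↦ (g_1 X_1, …, g_b X_b)`. -/
def Invariant {b m n : ℕ} (Ω : Set (Tuples b m n)) : Prop :=
  ∀ i : Fin b, ∀ g ∈ Matrix.orthogonalGroup (Fin m) ℝ, ∀ x y : Tuples b m n,
    block i y = g * block i x → (∀ j, j ≠ i → block j y = block j x) → x ∈ Ω → y ∈ Ω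

section defs

variable {κ : Type} [Fintype κ]

/-- convex body: compact, convex, with nonempty interior -/
structure ConvexBody (K : Set (EuclideanSpace ℝ κ)) : Prop where
  conv : Convex ℝ K
  comp : IsCompact K
  int : (interior K).Nonempty

/-- Minkowski (exterior) boundary measure `μ⁺(A)` -/
noncomputable def bdry (μ : Measure (EuclideanSpace ℝ κ)) (A : Set (EuclideanSpace ℝ κ)) : ℝ≥0∞ :=
  Filter.liminf (fun ε : ℝ => (μ (Metric.thickening ε A) - μ A) / ENNReal.ofReal ε)
    (nhdsWithin 0 (Set.Ioi 0))

/-- the halfspace `⟪u, x⟫ ≤ b` -/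
def halfspace (u : EuclideanSpace ℝ κ) (b : ℝ) : Set (EuclideanSpace ℝ κ) :=
  {x | inner ℝ u x ≤ b}

/-- the uniform probability measure on `K` -/
noncomputable def unif (K : Set (EuclideanSpace ℝ κ)) : Measure (EuclideanSpace ℝ κ) :=
  (volume K)⁻¹ • volume.restrict K

/-- the inequality of Kannan, Lovasz and Simonovits with constant `c` for the uniform measure `μ` on
`K` and sets of measure `1/2`: if `t min(μ H, 1 - μ H) ≤ μ⁺(H)` for all halfspaces `H` then
`c t / 2 ≤ μ⁺(A)` for all measurable `A` with `μ A = 1/2`. -/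
def KLSBoundHalf (c : ℝ) (K : Set (EuclideanSpace ℝ κ)) : Prop :=
  ∀ t : ℝ≥0∞, (∀ (u : EuclideanSpace ℝ κ) (b : ℝ), u ≠ 0 →
      t * min (unif K (halfspace u b)) (1 - unif K (halfspace u b)) ≤
        bdry (unif K) (halfspace u b)) →
    ∀ A : Set (EuclideanSpace ℝ κ), MeasurableSet A → unif K A = 1 / 2 →
      ENNReal.ofReal c * t * (1 / 2) ≤ bdry (unif K) A

end defs

open Pool.Agent.H888R2.KB Pool.Agent.H888R2.KT in
theorem invariant_ap {b m n : ℕ} {Ω : Set (Tuples b m n)} (h : Invariant Ω) (i : Fin b)
    (g : Matrix (Fin m) (Fin m) ℝ) (hg : g ∈ Matrix.orthogonalGroup (Fin m) ℝ) (x : Tuples b m n)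
    (hx : x ∈ Ω) : ap i (lml g) x ∈ Ω := by
  refine h i g hg x _ ?_ ?_ hx
  · ext k l
    show (ap i (lml g) x) (i, (k, l)) = _
    show (if (i, (k, l)).1 = i then _ else _) = _
    rw [if_pos rfl]
    rfl
  · intro j hj
    ext k l
    show (ap i (lml g) x) (j, (k, l)) = _
    show (if (j, (k, l)).1 = i then _ else _) = _
    rw [if_neg hj]
    rfl

/-- an invariant set is symmetric -/
theorem symm {b m n : ℕ} {Ω : Set (Tuples b m n)} (h : Invariant Ω) (x : Tuples b m n)
    (hx : x ∈ Ω) : -x ∈ Ω := by
  have key : ∀ s : Finset (Fin b), (WithLp.toLp 2 fun p => if p.1 ∈ s then -x p else x p :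
      Tuples b m n) ∈ Ω := by
    intro s
    induction s using Finset.induction_on with
    | empty => simpa using hx
    | insert i s his ih =>
      refine h i (-1) ?_ _ _ ?_ ?_ ih
      · rw [Matrix.mem_orthogonalGroup_iff]
        simp
      · ext k l
        simp [block, his]
      · intro j hj
        ext k l
        simp [block, hj]
  have h1 := key Finset.univ
  convert h1 using 1
  ext p
  simp

/-- **KLS (Cheeger form) for convex bodies invariant under independent rotations.** There is an
absolute constant `c > 0` such that for all `b ≥ 1`, `m ≥ 3`, `1 ≤ n ≤ m` and every convex body `K` of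
`b`-tuples of `m × n` matrices invariant under independent orthogonal matrices acting on the blocks:
if `t min(μ H, 1 - μ H) ≤ μ⁺(H)` for all halfspaces `H`, then `μ⁺(A) ≥ (c / (1 + log b / m)) t / 2`
for all measurable `A` with `μ A = 1/2`, `μ` uniform on `K`. -/
theorem result : ∃ c : ℝ, 0 < c ∧ ∀ b m n : ℕ, 1 ≤ b → 3 ≤ m → 1 ≤ n → n ≤ m →
    ∀ K : Set (Tuples b m n), ConvexBody K → Invariant K →
      KLSBoundHalf (c / (1 + Real.log b / m)) K := by
  obtain ⟨c, hc, H⟩ := Pool.Agent.W695.KH.cheeger_half
  obtain ⟨C₂, hC₂, h₂⟩ := Pool.Agent.H888R2.KB.mainc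
  refine ⟨c / Real.sqrt C₂, by positivity, ?_⟩
  intro b m n hb hm hn hnm K hK hinv
  have hlog : 0 ≤ Real.log b := Real.log_nonneg (by exact_mod_cast hb)
  have hfac : 0 < 1 + Real.log b / m := by positivity
  have hne' : Nonempty (Fin b × (Fin m × Fin n)) := ⟨(⟨0, hb⟩, (⟨0, by omega⟩, ⟨0, hn⟩))⟩
  have key := H (Fin b × (Fin m × Fin n)) K hK.conv hK.comp hK.int (symm hinv)
    (C₂ * (1 + Real.log b / m) ^ 2) (by positivity) (by
      intro A hA hprob hnn hmeas hlc hiso s hs hcov v hv hvb
      refine h₂ hb hm hn hnm _ ⟨hnn, hmeas, hlc, fun i g hg x => ?_⟩ hprob s hs hcov v hv hvb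
      obtain ⟨e, he⟩ := Pool.Agent.H888R2.KB.ap_iso (n := n) i g hg
      rw [← he]
      refine hiso e (fun x => ?_) x
      constructor
      · intro hx
        have hg' : star g ∈ Matrix.orthogonalGroup (Fin m) ℝ := Unitary.star_mem hg
        have h3 := invariant_ap hinv i (star g) hg' (e x) hx
        rw [he, Pool.Agent.H888R2.KB.G1x.apap i (star g) g
          ((Matrix.mem_unitaryGroup_iff').1 hg)] at h3
        exact h3
      · intro hx
        rw [he]
        exact invariant_ap hinv i g hg x hx)
  intro t ht A _ hA2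
  have h1 : ENNReal.ofReal (c / Real.sqrt (C₂ * (1 + Real.log b / m) ^ 2)) * t *
      min (unif K A) (1 - unif K A) ≤ bdry (unif K) A := key (unif K) rfl t ht A hA2
  rw [Real.sqrt_mul hC₂.le, Real.sqrt_sq hfac.le, ← div_div] at h1
  have h2 : min (1 / 2 : ℝ≥0∞) (1 - 1 / 2) = 1 / 2 := by
    have : (1 : ℝ≥0∞) - 1 / 2 = 1 / 2 := by
      rw [one_div]
      exact ENNReal.one_sub_inv_two
    rw [this, min_self]
  have h3 : min (unif K A) (1 - unif K A) = 1 / 2 := by rw [hA2, h2]
  rw [h3] at h1
  exact h1

end Pool.Agent.Results.MP_8d00da_gt.IndependentRotationsCheeger
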