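import Pool.Agent.W695.KH.Chee
import Pool.Agent.H212R2.KLS.G1
import Pool.Agent.H212R2.KLS.G2
import Pool.Agent.H212R2.KLS.L3

/-!
# The KLS conjecture in Cheeger form for convex bodies of matrices invariant under `X ↦ g X`

Q1 for all convex bodies `K` of real `m × n` matrices, `n ≤ m`, `3 ≤ m`, which are invariant under left
multiplication by orthogonal matrices: the Cheeger constant of the uniform measure is, up to an
absolute factor, the one for halfspaces. Minkowski boundary measure, all measurable sets.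

Method: the Poincare inequality of `Pool.Agent.H212R2.KLS` (starting files) and a new formalised proof
of the implication from Poincare to Cheeger inequalities for log-concave measures by a discrete heat
flow (modules `KH`).
-/

set_option autoImplicit false

namespace Pool.Agent.Results.MP_8d00da_gt.OrthogonalInvariantCheeger

open MeasureTheory Set
open scoped ENNReal InnerProductSpace

/-- real `m × n` matrices with the Euclidean (Hilbert-Schmidt) structure -/
abbrev Mat (m n : ℕ) : Type := EuclideanSpace ℝ (Fin m × Fin n)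

/-- `K` contains `g X` for all `X ∈ K` and all orthogonal `g` -/
def Invariant {m n : ℕ} (K : Set (Mat m n)) : Prop :=
  ∀ g ∈ Matrix.orthogonalGroup (Fin m) ℝ, ∀ X ∈ K, (WithLp.toLp 2 fun p => ∑ k, g p.1 k * X (k, p.2)) ∈ K

section defs

variable {κ : Type} [Fintype κ]

/-- convex body: compact, convex, with nonempty interior -/
structure ConvexBody (K : Set (EuclideanSpace ℝ κ)) : Prop where
  conv : Convex ℝ K
  comp : IsCompact K
  int : (interior K).Nonempty

/-- Minkowski (exterior) boundary measure `μ⁺(A)` -/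
noncomputable def bdry (μ : Measure (EuclideanSpace ℝ κ)) (A : Set (EuclideanSpace ℝ κ)) : ℝ≥0∞ :=
  Filter.liminf (fun ε : ℝ => (μ (Metric.thickening ε A) - μ A) / ENNReal.ofReal ε)
    (nhdsWithin 0 (Set.Ioi 0))

/-- the halfspace `⟪u, x⟫ ≤ b` -/
def halfspace (u : EuclideanSpace ℝ κ) (b : ℝ) : Set (EuclideanSpace ℝ κ) :=
  {x | inner ℝ u x ≤ b}

/-- the uniform probability measure on `K` -/
noncomputable def unif (K : Set (EuclideanSpace ℝ κ)) : Measure (EuclideanSpace ℝ κ) :=
  (volume K)⁻¹ • volume.restrict K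

/-- the inequality of Kannan, Lovasz and Simonovits with constant `c` for the uniform measure `μ` on
`K`: if `t min(μ H, 1 - μ H) ≤ μ⁺(H)` for all halfspaces `H` then `c t min(μ A, 1 - μ A) ≤ μ⁺(A)` for
all measurable `A`; that is, `D_Che(μ) ≥ c D_Che^Lin(μ)`. -/
def KLSBound (c : ℝ) (K : Set (EuclideanSpace ℝ κ)) : Prop :=
  ∀ t : ℝ≥0∞, (∀ (u : EuclideanSpace ℝ κ) (b : ℝ), u ≠ 0 →
      t * min (unif K (halfspace u b)) (1 - unif K (halfspace u b)) ≤
        bdry (unif K) (halfspace u b)) →
    ∀ A : Set (EuclideanSpace ℝ κ), MeasurableSet A →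
      ENNReal.ofReal c * t * min (unif K A) (1 - unif K A) ≤ bdry (unif K) A

end defs

/-- **KLS (Cheeger form) for convex bodies of matrices invariant under `X ↦ g X`.** There is an
absolute constant `c > 0` such that for all `m ≥ 3`, `1 ≤ n ≤ m` and every convex body `K` of real
`m × n` matrices invariant under left multiplication by orthogonal matrices
`D_Che(λ_K) ≥ c D_Che^Lin(λ_K)`. -/
theorem result : ∃ c : ℝ, 0 < c ∧ ∀ m n : ℕ, 3 ≤ m → 1 ≤ n → n ≤ m →
    ∀ K : Set (Mat m n), ConvexBody K → Invariant K → KLSBound c K := by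
  obtain ⟨c, hc, H⟩ := Pool.Agent.W695.KH.cheeger
  obtain ⟨C, hC, h⟩ := Pool.Agent.H212R2.KLS.main_of Pool.Agent.H212R2.KLS.core
    (fun hρ hm => (Pool.Agent.H212R2.KLS.Dens.basic hρ hm).2.2.2.2)
  refine ⟨c / Real.sqrt C, by positivity, ?_⟩
  intro m n hm hn hnm K hK hinv
  have hne' : Nonempty (Fin m × Fin n) := ⟨(⟨0, by omega⟩, ⟨0, hn⟩)⟩
  have hlm : ∀ g ∈ Matrix.orthogonalGroup (Fin m) ℝ, ∀ X ∈ K, Pool.Agent.H212R2.KLS.lm g X ∈ K :=
    fun g hg X hX => hinv g hg X hX
  have hsym : ∀ x ∈ K, -x ∈ K := by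
    intro x hx
    have h1 := hlm (-1) (by rw [Matrix.mem_orthogonalGroup_iff]; simp) x hx
    have h2 : Pool.Agent.H212R2.KLS.lm (-1 : Matrix (Fin m) (Fin m) ℝ) x = -x := by
      have h3 : (-1 : Matrix (Fin m) (Fin m) ℝ) * Pool.Agent.H212R2.KLS.toM x =
          -(Pool.Agent.H212R2.KLS.toM x) := by simp
      ext p
      exact congrFun (congrFun h3 p.1) p.2
    rwa [h2] at h1
  have key := H (Fin m × Fin n) K hK.conv hK.comp hK.int hsym C hC (by
    intro A hA hprob hnn hmeas hlc hiso s hs hcov v hv hvb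
    have hpr : IsProbabilityMeasure (Pool.Agent.H212R2.KLS.mu (Pool.Agent.W695.KH.rh K A)) :=
      ⟨hprob⟩
    refine h hm hnm _ ⟨hnn, hmeas, hlc, fun g hg x => ?_⟩ hprob s hs hcov v hv
      (MemLp.of_bound hv.continuous.aestronglyMeasurable 1 (Filter.Eventually.of_forall hvb))
    refine hiso (Pool.Agent.H212R2.KLS.L3x.lmE g hg) (fun y => ⟨fun hy => ?_, fun hy => hlm g hg y hy⟩) x
    have hg' : g.transpose ∈ Matrix.orthogonalGroup (Fin m) ℝ := by
      rw [Matrix.mem_orthogonalGroup_iff, Matrix.transpose_transpose]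
      exact (Matrix.mem_orthogonalGroup_iff' _ _).1 hg
    have h3 := hlm g.transpose hg' _ hy
    rw [Pool.Agent.H212R2.KLS.L3x.lmE_apply, Pool.Agent.H212R2.KLS.L3x.lm_lm,
      (Matrix.mem_orthogonalGroup_iff' _ _).1 hg, Pool.Agent.H212R2.KLS.L3x.lm_one] at h3
    exact h3)
  intro t ht A hA
  exact key (unif K) rfl t ht A hA

end Pool.Agent.Results.MP_8d00da_gt.OrthogonalInvariantCheeger
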