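import Pool.Agent.W275.US.A7

/-!
# KLS for unconditional sums of convex bodies

Let `K_1, …, K_b` be symmetric convex bodies in `ℝ^d` (unit balls of norms `p_1, …, p_b`) and let `μ`
be a log-concave probability measure on `(ℝ^d)^b` whose density is ANY function of the norms
`p_1(x_1), …, p_b(x_b)` (for instance the uniform measure on an unconditional sum of the `K_i`, such
as an `ℓ_q` sum). Then the Kannan-Lovasz-Simonovits constant of `μ` (in the equivalent form, by a
theorem of E. Milman, of a variance bound for Lipschitz functions) is at most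
`C (1 + log b / d) ^ 2` times the largest KLS constant of the bodies `K_i`; the factor is absolute for
`b ≤ exp d`.

Method: the directions `x_i / p_i(x_i)` are independent of each other and of the norms; their part of
the variance is controlled by the Efron-Stein inequality and the Poincare inequalities of the `K_i`,
integrated along the layers of the density. The law of the norms is, up to scaling, the same as that of
the Euclidean norms of the blocks of a log-concave vector invariant under independent rotations, to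
which the theorem of `Pool.Agent.H888R2.KB` applies.

Parts proved by helpers 22, 45, 148, 177, 216, 239, 249, 440, 505, 930; `Pool.Agent.H888R2.KB` is by
helpers 12, 21, 141, 303, 320, 323, 377, 437, 551, 577, 634, 663, 766, 882, 888, 910, 929, 964.
-/

set_option autoImplicit false

namespace Pool.Agent.Results.MP_8d00da_gt.UnconditionalSums

open MeasureTheory Set
open scoped ENNReal InnerProductSpace

/-- one block `ℝ^d` -/
abbrev Block (d : ℕ) : Type := EuclideanSpace ℝ (Fin d)

/-- `(ℝ^d)^b` with the Euclidean structure -/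
abbrev Tuple (b d : ℕ) : Type := EuclideanSpace ℝ (Fin b × Fin d)

/-- the `i`-th block `x_i` of `x` -/
noncomputable def block {b d : ℕ} (i : Fin b) (x : Tuple b d) : Block d :=
  WithLp.toLp 2 fun k => x (i, k)

/-- `p` is a norm -/
def IsNorm {d : ℕ} (p : Seminorm ℝ (Block d)) : Prop := ∀ x, p x = 0 → x = 0

/-- the uniform probability measure on the unit ball of `p` -/
noncomputable def unifBall {d : ℕ} (p : Seminorm ℝ (Block d)) : Measure (Block d) :=
  ProbabilityTheory.cond volume {x | p x ≤ 1}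

/-- The KLS constant of the unit ball of `p` is at most `κ`: whenever all variances of linear
functionals `⟪θ, ·⟫` are at most `s ‖θ‖²`, the Poincare inequality holds with constant `κ s`. -/
def KLSConstLE {d : ℕ} (κ : ℝ) (p : Seminorm ℝ (Block d)) : Prop :=
  ∀ s : ℝ, (∀ θ, ∫ u, ⟪θ, u⟫_ℝ ^ 2 ∂(unifBall p) ≤ s * ‖θ‖ ^ 2) →
    ∀ g : Block d → ℝ, ContDiff ℝ 1 g →
      ProbabilityTheory.variance g (unifBall p) ≤ κ * s * ∫ u, ‖fderiv ℝ g u‖ ^ 2 ∂(unifBall p)

/-- `ρ` is a log-concave density on `(ℝ^d)^b` which is a function of `p_1(x_1), …, p_b(x_b)` only -/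
structure Density {b d : ℕ} (p : Fin b → Seminorm ℝ (Block d)) (ρ : Tuple b d → ℝ) : Prop where
  meas : Measurable ρ
  nonneg : ∀ x, 0 ≤ ρ x
  logc : ∀ x y, ∀ t : ℝ, 0 < t → t < 1 → ρ x ^ (1 - t) * ρ y ^ t ≤ ρ ((1 - t) • x + t • y)
  norms : ∀ x y, (∀ i, p i (block i x) = p i (block i y)) → ρ x = ρ y

/-- `E ⟪θ, X⟫² ≤ s ‖θ‖²` for all `θ` (here the mean is zero by symmetry: the covariance matrix has
norm at most `s`). -/
def CovLe {b d : ℕ} (μ : Measure (Tuple b d)) (s : ℝ) : Prop :=
  ∀ θ : Tuple b d, ∫⁻ x, ENNReal.ofReal (⟪θ, x⟫_ℝ ^ 2) ∂μ ≤ ENNReal.ofReal (s * ‖θ‖ ^ 2)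

/-- **KLS for unconditional sums of convex bodies.** There is an absolute constant `C` such that for
all `b ≥ 1`, `d ≥ 3`, `κ ≥ 1`, all norms `p_1, …, p_b` on `ℝ^d` whose unit balls have KLS constant at
most `κ`, every log-concave probability density `ρ` on `(ℝ^d)^b` depending only on the norms
`p_1(x_1), …, p_b(x_b)` and every `s > 0` with `E ⟪θ, X⟫² ≤ s ‖θ‖²`, the following holds with
`K = C κ (1 + log b / d)² s`. Every `C¹` function with `‖∇ f‖ ≤ 1` has variance at most `K`, and every
`C¹` function with `|f| ≤ 1` satisfies `(Var f)² ≤ K E ‖∇ f‖²`. -/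
theorem result : ∃ C : ℝ, 0 < C ∧ ∀ b d : ℕ, 1 ≤ b → 3 ≤ d → ∀ κ : ℝ, 1 ≤ κ →
    ∀ p : Fin b → Seminorm ℝ (Block d), (∀ i, IsNorm (p i)) → (∀ i, KLSConstLE κ (p i)) →
    ∀ ρ : Tuple b d → ℝ, Density p ρ →
    ∀ μ : Measure (Tuple b d), μ = volume.withDensity (fun x => ENNReal.ofReal (ρ x)) →
    IsProbabilityMeasure μ → ∀ s : ℝ, 0 < s → CovLe μ s →
    ∀ f : Tuple b d → ℝ, ContDiff ℝ 1 f →
    ((∀ x, ‖fderiv ℝ f x‖ ≤ 1) → MemLp f 2 μ ∧
      ProbabilityTheory.variance f μ ≤ C * κ * (1 + Real.log b / d) ^ 2 * s) ∧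
    ((∀ x, |f x| ≤ 1) → ENNReal.ofReal (ProbabilityTheory.variance f μ ^ 2) ≤
      ENNReal.ofReal (C * κ * (1 + Real.log b / d) ^ 2 * s) *
        ∫⁻ x, ENNReal.ofReal (‖fderiv ℝ f x‖ ^ 2) ∂μ) := by
  obtain ⟨C, hC, h⟩ := W275.US.mainb
  refine ⟨8 * C, by positivity, ?_⟩
  intro b d hb hd κ hκ p hp hkls ρ hρ μ hμ hprob s hs hmom f hf
  subst hμ
  have hκ0 : 0 < κ := by linarith
  have hk : ∀ i, W275.US.KLSBody κ (p i) := by
    intro i s' hs' g hg
    have h1 : ProbabilityTheory.variance g (W275.US.unif (p i)) ≤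
        κ * s' * ∫ u, ‖fderiv ℝ g u‖ ^ 2 ∂(W275.US.unif (p i)) := hkls i s' hs' g hg
    have hpr := W275.US.unif_prob (hp i)
    have hL : MemLp g 2 (W275.US.unif (p i)) := by
      obtain ⟨B, hB⟩ := (W275.US.ball1_compact (hp i)).exists_bound_of_continuousOn
        hg.continuous.continuousOn
      refine MemLp.of_bound hg.continuous.aestronglyMeasurable B ?_
      filter_upwards [W275.US.unif_ball (p := p i)] with u hu using hB u hu
    rw [ProbabilityTheory.variance_eq_sub hL] at h1
    exact h1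
  obtain ⟨h1, h2⟩ := h hb hd κ hκ p hp hk ρ hρ.nonneg hρ.meas hρ.logc hρ.norms
    hprob.measure_univ s hs hmom f hf
  have hK : 0 ≤ κ * (1 + Real.log b / d) ^ 2 * s := by positivity
  refine ⟨fun hf1 => ?_, fun hf1 => ?_⟩
  · obtain ⟨h3, h4⟩ := h1 hf1
    refine ⟨h3, ?_⟩
    rw [ProbabilityTheory.variance_eq_integral hf.continuous.measurable.aemeasurable]
    refine h4.trans ?_
    show C * κ * (1 + Real.log b / d) ^ 2 * s ≤ 8 * C * κ * (1 + Real.log b / d) ^ 2 * s
    have : 0 ≤ C * (κ * (1 + Real.log b / d) ^ 2 * s) := mul_nonneg hC.le hK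
    nlinarith
  · have h4 := h2 hf1
    rw [ProbabilityTheory.variance_eq_integral hf.continuous.measurable.aemeasurable]
    exact h4

end Pool.Agent.Results.MP_8d00da_gt.UnconditionalSums
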